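import Pool.Agent.Helper76.TB.Goals
import Pool.Agent.Helper32.BFT.FU

/-!
# Project TB: packet U-CORR, the averaged correlations
-/

set_option autoImplicit false

open Finset

namespace Pool.Agent.Helper17.TB

open Pool.Agent.Helper90.Twin (Ps Gz Sz XX yy Xz avgI errB sig SieveSys cc mem_Ps errB_nonneg brun)
open Pool.Agent.Helper60.BFT (XA yA Av lg Av_sum)
open Pool.Agent.Helper76.TB

/-- the correlations of the sifted set, no separation -/
theorem corr0 (A : ℕ → ℕ) (r : ℕ) (I : Finset ℕ) (m N : ℕ) :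
    |∑ t ∈ range N, ∏ i ∈ I, XA r A (t + i) - N * avgI (Ps r) (yA A) I|
      ≤ errB (Ps r) I.card m N := by
  have hs : SieveSys (Ps r ∪ ∅) (yA A) := by
    rw [Finset.union_empty]
    exact Pool.Agent.Helper32.BFT.sieveSysA A r
  have h := Pool.Agent.Helper90.Twin.corr hs (Finset.disjoint_empty_right _) (H := I.sup id)
    (by simp) (I := I) (fun i hi => Finset.le_sup (f := id) hi) m N
  simp only [Finset.union_empty, cc, Finset.prod_empty, one_mul] at h
  exact h

theorem corr (h1 : LOCALG) (h2 : INVG) : CORRG := by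
  obtain ⟨i1, i2, i3, i4⟩ := h2
  refine ⟨?_, ?_⟩
  · intro r Z hrZ I A m N
    rw [Av_sum]
    have e1 : ∑ t ∈ range N, Av (lg r Z) (fun B => ∏ i ∈ I, XA Z B (t + i)) A =
        avgI (Ps Z \ Ps r) yy I * ∑ t ∈ range N, ∏ i ∈ I, XA r A (t + i) := by
      rw [Finset.mul_sum]
      exact Finset.sum_congr rfl fun t _ => h1 r Z hrZ I t A
    rw [e1, ← i2 r Z hrZ I, ← i1 r A I]
    obtain ⟨h0, hle⟩ := i3 r Z I
    have e2 : avgI (Ps Z \ Ps r) yy I * ∑ t ∈ range N, ∏ i ∈ I, XA r A (t + i) -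
        N * (avgI (Ps Z \ Ps r) yy I * avgI (Ps r) (yA A) I) =
        avgI (Ps Z \ Ps r) yy I * (∑ t ∈ range N, ∏ i ∈ I, XA r A (t + i) -
          N * avgI (Ps r) (yA A) I) := by ring
    rw [e2, abs_mul, abs_of_nonneg h0]
    have h3 := corr0 A r I m N
    calc _ ≤ 1 * |∑ t ∈ range N, ∏ i ∈ I, XA r A (t + i) - N * avgI (Ps r) (yA A) I| :=
          mul_le_mul_of_nonneg_right hle (abs_nonneg _)
      _ ≤ _ := by rw [one_mul]; exact h3
  · intro r Z hrZ A m N
    rw [Av_sum]
    have e0 : ∀ t, Av (lg r Z) (fun B => XA Z B (2 * t)) A =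
        avgI (Ps Z \ Ps r) yy {0} * XA r A (2 * t) := by
      intro t
      have := h1 r Z hrZ {0} (2 * t) A
      simpa using this
    have e1 : ∑ t ∈ range N, Av (lg r Z) (fun B => XA Z B (2 * t)) A =
        avgI (Ps Z \ Ps r) yy {0} * ∑ t ∈ range N, XA r A (2 * t) := by
      rw [Finset.mul_sum]
      exact Finset.sum_congr rfl fun t _ => e0 t
    rw [e1, ← i4 Z, ← i2 r Z hrZ {0}, i4 r]
    obtain ⟨h0, hle⟩ := i3 r Z {0}
    have e2 : avgI (Ps Z \ Ps r) yy {0} * ∑ t ∈ range N, XA r A (2 * t) -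
        N * (avgI (Ps Z \ Ps r) yy {0} * Gz r) =
        avgI (Ps Z \ Ps r) yy {0} * (∑ t ∈ range N, XA r A (2 * t) - N * Gz r) := by ring
    rw [e2, abs_mul, abs_of_nonneg h0]
    have hs := Pool.Agent.Helper32.BFT.sieveSysA A r
    have hadm := Pool.Agent.Helper32.BFT.adm_yA2 A
    have hm := Pool.Agent.Helper32.BFT.mean_yA2 A r
    have h3 : |∑ t ∈ range N, XA r A (2 * t) - N * Gz r| ≤ errB (Ps r) 1 m N := by
      have hb := brun (s := Ps r) (w := fun p t => yA A p (2 * t)) (κ := 2)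
        (fun p hp => hs.pos hp) hs.cop
        (fun p _ x => Pool.Agent.Helper32.BFT.yA_nonneg A p _)
        (fun p _ x => Pool.Agent.Helper32.BFT.yA_le_one A p _)
        (fun p _ x => by
          show yA A p (2 * (x + p)) = yA A p (2 * x)
          rw [show 2 * (x + p) = 2 * x + p + p by ring, Pool.Agent.Helper32.BFT.yA_per,
            Pool.Agent.Helper32.BFT.yA_per])
        (by norm_num)
        (fun p hp => by
          have h5 := mem_Ps.1 hp
          rw [Pool.Agent.Helper90.Twin.sum_two_mul (h5.2.2.odd_of_ne_two (by omega))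
            (Pool.Agent.Helper32.BFT.yA_per A p), Pool.Agent.Helper32.BFT.yA_sum A h5.2.2 h5.1])
        m N
      have hm' : ∏ p ∈ Ps r, (1 - (∑ x ∈ range p, yA A p (2 * x)) / (p : ℝ)) = Gz r := hm
      rw [hm'] at hb
      unfold errB
      simp only [Nat.cast_one, mul_one]
      exact hb
    calc _ ≤ 1 * |∑ t ∈ range N, XA r A (2 * t) - N * Gz r| :=
          mul_le_mul_of_nonneg_right hle (abs_nonneg _)
      _ ≤ _ := by rw [one_mul]; exact h3

end Pool.Agent.Helper17.TB
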