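import Pool.Agent.Helper76.TB.Goals
import Pool.Agent.Helper60.BFT.Core

/-!
# Project TB: packet U-MEAN, the three means
-/

set_option autoImplicit false

open Finset Filter Topology

namespace Pool.Agent.Helper17.TB

open Pool.Agent.Helper90.Twin (Ps Gz Sz XX yy Xz avgI errB sig SieveSys)
open Pool.Agent.Helper60.BFT (XA yA Av lg lg_pos Av_sum Av_sub Av_add Av_const Av_mono Av_mul_left
  Av_ext abs_Av_le B0 B1 B2)
open Pool.Agent.Helper76.TB

theorem tendsto_l2 : Tendsto l2 atTop atTop :=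
  Real.tendsto_log_atTop.comp (Real.tendsto_log_atTop.comp tendsto_natCast_atTop_atTop)

theorem abs_sg (g : ℕ) : |sg g| ≤ 1 := by
  unfold sg
  rw [abs_pow, abs_neg, abs_one, one_pow]

theorem mean (h1 : UNIG) (h2 : SEQ2G) (h3 : HBG) (h4 : LONGG) : MEANG := by
  obtain ⟨C, hC, hU⟩ := h1
  refine ⟨C, hC, ?_⟩
  have hL : Tendsto (fun Z : ℕ => Real.log (Z : ℝ)) atTop atTop :=
    Real.tendsto_log_atTop.comp tendsto_natCast_atTop_atTop
  filter_upwards [hU, h3 1, h4, tendsto_l2.eventually_ge_atTop 3, hL.eventually_ge_atTop 5] with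
    Z hU hB hlong hl2 hlog
  intro r hr N hN A
  obtain ⟨u1, u2, u3⟩ := hU r hr N hN A
  obtain ⟨b1, b2, -, -, -, -⟩ := hB
  have hH1 : 1 ≤ HH Z := by
    have : (1 : ℝ) ≤ HH Z := by linarith
    exact_mod_cast this
  set L := Real.log (Z : ℝ) with hLdef
  have hL0 : 0 < L := by linarith
  -- `1 ≤ N / L ^ 6`
  have hl0 : 0 ≤ Real.log ((r : ℝ) + 2) := Real.log_nonneg (by
    have : (0 : ℝ) ≤ r := Nat.cast_nonneg r
    linarith)
  have hlogN : 6 * l2 Z ≤ Real.log N := by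
    have q1 : 9 ≤ l2 Z ^ 2 := by nlinarith
    have q2 : 9 * l2 Z ≤ C * l2 Z ^ 2 * (Real.log (r + 2) + l2 Z) := by
      have q3 : 9 ≤ C * l2 Z ^ 2 := by nlinarith
      have q4 : l2 Z ≤ Real.log (r + 2) + l2 Z := by linarith
      calc 9 * l2 Z ≤ (C * l2 Z ^ 2) * l2 Z := mul_le_mul_of_nonneg_right q3 (by linarith)
        _ ≤ _ := mul_le_mul_of_nonneg_left q4 (by linarith)
    linarith
  have hN0 : 0 < (N : ℝ) := by
    rcases Nat.eq_zero_or_pos N with h | h
    · rw [h, Nat.cast_zero, Real.log_zero] at hlogN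
      linarith
    · exact_mod_cast h
  have hN1 : 1 ≤ (N : ℝ) / L ^ 6 := by
    rw [le_div_iff₀ (by positivity), one_mul]
    have q1 : Real.log (L ^ 6) ≤ Real.log N := by
      rw [Real.log_pow]
      have : l2 Z = Real.log L := rfl
      rw [← this]
      push_cast
      linarith
    exact (Real.log_le_log_iff (by positivity) hN0).1 q1
  have hdiv : 5 * ((N : ℝ) / L ^ 6) ≤ N / L ^ 5 := by
    have e : (N : ℝ) / L ^ 5 = L * (N / L ^ 6) := by field_simp
    rw [e]
    exact mul_le_mul_of_nonneg_right hlog (by positivity)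
  have hq : 0 ≤ (N : ℝ) / L ^ 6 := by positivity
  refine ⟨by linarith, by linarith, ?_⟩
  have p1 := u1 (fun _ => 1) (fun _ => by simp)
  have p2 := u1 sg abs_sg
  have hE : |Av (lg r Z) (fun B => B2 (XA Z B) N - ∑ t ∈ range N, phi sg (XA Z B) (HH Z) t) A| ≤
      Av (lg r Z) (fun B => (B0 (XA Z B) N - ∑ t ∈ range N, phi (fun _ => 1) (XA Z B) (HH Z) t)
        + 1) A := by
    refine (abs_Av_le _ _ _).trans (Av_mono _ _ _ _ fun B => ?_)
    have := h2 (XA Z B) (Pool.Agent.Helper60.BFT.XA_zero_one Z B) (HH Z) N hH1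
    rw [Finset.sum_sub_distrib] at this
    exact this
  rw [Av_add, Av_sub, Av_const _ lg_pos, Av_sub] at hE
  have hlong2 : (N : ℝ) * (Gz Z - PA Z (fun _ => 1)) ≤ N / L ^ 6 := by
    have := mul_le_mul_of_nonneg_left hlong hN0.le
    rwa [mul_one_div] at this
  rw [abs_le] at p1 p2 u2 hE
  rw [abs_le]
  constructor <;> nlinarith [p1.1, p1.2, p2.1, p2.2, u2.1, u2.2, hE.1, hE.2]

end Pool.Agent.Helper17.TB
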