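import Pool.Agent.Helper33.TB.Goals

/-!
# Project TB (MP_74f661_nt), packet ST
-/

set_option autoImplicit false

open Finset

namespace Pool.Agent.Helper17.TB

open Pool.Agent.Helper33.TB
open Pool.Agent.Helper90.Twin (Ps Gz)

theorem av_sub_le {Q : ℕ} (hQ : 0 < Q) {f g : ℤ → ℝ} {c : ℝ} (h : ∀ t, |f t - g t| ≤ c) :
    |Av Q f - Av Q g| ≤ c := by
  have hQ' : (0 : ℝ) < Q := by exact_mod_cast hQ
  unfold Av
  rw [← sub_div, ← Finset.sum_sub_distrib, abs_div, abs_of_pos hQ', div_le_iff₀ hQ']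
  calc |∑ t ∈ range Q, (f t - g t)| ≤ ∑ t ∈ range Q, |f t - g t| := Finset.abs_sum_le_sum_abs _ _
    _ ≤ ∑ _t ∈ range Q, c := Finset.sum_le_sum fun t _ ↦ h t
    _ = c * Q := by rw [Finset.sum_const, Finset.card_range, nsmul_eq_mul, mul_comm]

open Classical in
/-- the combinatorial identity -/
theorem comb (U Si So : Finset ℕ) (hd : Disjoint Si So) (hU : Si ⊆ U) (τ : ℝ) :
    ∑ K ∈ U.powerset, τ ^ K.card * (1 - τ) ^ (U.card - K.card) *
      (if Si ⊆ K ∧ Disjoint K So then 1 else 0) =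
    τ ^ Si.card * ∏ i ∈ So, (if i ∈ U then 1 - τ else 1) := by
  have h1 : ∀ K ∈ U.powerset, τ ^ K.card * (1 - τ) ^ (U.card - K.card) *
      (if Si ⊆ K ∧ Disjoint K So then 1 else 0) =
      (∏ i ∈ K, τ * (if i ∈ So then 0 else 1)) *
        ∏ i ∈ U \ K, (1 - τ) * (if i ∈ Si then 0 else 1) := by
    intro K hK
    rw [Finset.mem_powerset] at hK
    rw [Finset.prod_mul_distrib, Finset.prod_mul_distrib, Finset.prod_const, Finset.prod_const,
      Finset.card_sdiff_of_subset hK]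
    by_cases h : Si ⊆ K ∧ Disjoint K So
    · rw [if_pos h, Finset.prod_eq_one, Finset.prod_eq_one]
      · ring
      · intro i hi
        rw [Finset.mem_sdiff] at hi
        rw [if_neg fun h' ↦ hi.2 (h.1 h')]
      · intro i hi
        rw [if_neg fun h' ↦ Finset.disjoint_left.1 h.2 hi h']
    · rw [if_neg h, mul_zero]
      rw [not_and_or] at h
      rcases h with h | h
      · obtain ⟨i, hi, hiK⟩ := Finset.not_subset.1 h
        rw [Finset.prod_eq_zero (i := i) (s := U \ K) (Finset.mem_sdiff.2 ⟨hU hi, hiK⟩)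
          (by rw [if_pos hi]), mul_zero, mul_zero]
      · rw [Finset.not_disjoint_iff] at h
        obtain ⟨i, hi, hiS⟩ := h
        rw [Finset.prod_eq_zero (i := i) (s := K) hi (by rw [if_pos hiS]), mul_zero, zero_mul]
  rw [Finset.sum_congr rfl h1, ← Finset.prod_add]
  have h2 : ∀ i ∈ U, τ * (if i ∈ So then 0 else 1) + (1 - τ) * (if i ∈ Si then 0 else 1) =
      (if i ∈ Si then τ else 1) * (if i ∈ So then 1 - τ else 1) := by
    intro i _
    by_cases hi : i ∈ Si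
    · have hi' : i ∉ So := Finset.disjoint_left.1 hd hi
      simp [hi, hi']
    · by_cases hi' : i ∈ So
      · simp [hi, hi']
      · simp [hi, hi']
  rw [Finset.prod_congr rfl h2, Finset.prod_mul_distrib, Finset.prod_ite_mem,
    Finset.prod_ite_mem, Finset.inter_eq_right.2 hU, Finset.prod_const, Finset.inter_comm,
    ← Finset.prod_ite_mem]

open Classical in
/-- the indicator of a pattern -/
theorem pat {X : ℤ → ℝ} (hX : ∀ t, X t = 0 ∨ X t = 1) (H : ℕ) (Si So : Finset ℕ)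
    (hSi : Si ⊆ range (H + 1)) (hSo : So ⊆ range (H + 1)) (t : ℤ) :
    (∏ i ∈ Si, X (t + (i : ℤ))) * ∏ i ∈ So, (1 - 1 * X (t + (i : ℤ))) =
      if Si ⊆ (range (H + 1)).filter (fun i : ℕ ↦ X (t + (i : ℤ)) = 1) ∧
        Disjoint ((range (H + 1)).filter (fun i : ℕ ↦ X (t + (i : ℤ)) = 1)) So then 1 else 0 := by
  by_cases h : Si ⊆ (range (H + 1)).filter (fun i : ℕ ↦ X (t + (i : ℤ)) = 1) ∧
      Disjoint ((range (H + 1)).filter (fun i : ℕ ↦ X (t + (i : ℤ)) = 1)) So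
  · rw [if_pos h, Finset.prod_eq_one, Finset.prod_eq_one, one_mul]
    · intro i hi
      have : X (t + (i : ℤ)) ≠ 1 := fun h' ↦
        Finset.disjoint_left.1 h.2 (Finset.mem_filter.2 ⟨hSo hi, h'⟩) hi
      rw [(hX (t + (i : ℤ))).resolve_right this, mul_zero, sub_zero]
    · intro i hi
      exact (Finset.mem_filter.1 (h.1 hi)).2
  · rw [if_neg h]
    rw [not_and_or] at h
    rcases h with h | h
    · obtain ⟨i, hi, hiK⟩ := Finset.not_subset.1 h
      have : X (t + (i : ℤ)) = 0 := (hX _).resolve_right fun h' ↦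
        hiK (Finset.mem_filter.2 ⟨hSi hi, h'⟩)
      rw [Finset.prod_eq_zero hi this, zero_mul]
    · rw [Finset.not_disjoint_iff] at h
      obtain ⟨i, hi, hiS⟩ := h
      have := (Finset.mem_filter.1 hi).2
      rw [Finset.prod_eq_zero (s := So) hiS (by rw [this]; ring), mul_zero]

open Classical in
theorem main (hPER : StmtPER) (hXSB : StmtXSB) (hTV : StmtTV) (L z H : ℕ) (h1 : 3 * H + 1 ≤ L)
    (h2 : 1 ≤ L) (h3 : L ≤ z) (Si So : Finset ℕ) (hd : Disjoint Si So)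
    (hSi : Si ⊆ range (H + 1)) (hSo : So ⊆ range (H + 1)) :
    |Av (QS (Ps z)) (fun t => (∏ i ∈ Si, XS (Ps z) (t + (i : ℤ))) *
        ∏ i ∈ So, (1 - 1 * XS (Ps z) (t + (i : ℤ)))) -
      (Gz z / Gz L) ^ Si.card * Av (QS (Ps L)) (fun t => (∏ i ∈ Si, XS (Ps L) (t + (i : ℤ))) *
        ∏ i ∈ So, (1 - (Gz z / Gz L) * XS (Ps L) (t + (i : ℤ))))| ≤ 8 * ((H : ℝ) + 1) ^ 2 / L := by
  set P : Finset ℕ := Ps z \ Ps L with hPdef
  have hPm : ∀ p ∈ P, p.Prime ∧ 5 ≤ p ∧ L < p ∧ p ≤ z := by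
    intro p hp
    rw [hPdef, Finset.mem_sdiff, Pool.Agent.Helper90.Twin.mem_Ps,
      Pool.Agent.Helper90.Twin.mem_Ps] at hp
    obtain ⟨⟨h5, h6, h7⟩, h8⟩ := hp
    refine ⟨h7, h5, ?_, h6⟩
    by_contra hcon
    exact h8 ⟨h5, by omega, h7⟩
  have hPL : ∀ p ∈ Ps L, p.Prime := fun p hp ↦ (Pool.Agent.Helper90.Twin.mem_Ps.1 hp).2.2
  have hz : Ps z = Ps L ∪ P :=
    (Finset.union_sdiff_of_subset (Pool.Agent.Helper90.Twin.Ps_mono h3)).symm
  have hdis : Disjoint (Ps L) P := Finset.disjoint_sdiff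
  have hgL : 0 < Gz L := Pool.Agent.Helper90.Twin.Gz_pos L
  set τ : ℝ := Gz z / Gz L with hτ
  have hτg : gS P = τ := by
    have e : gS (Ps z) = gS (Ps L) * gS P := by
      rw [hz]; unfold gS; exact Finset.prod_union hdis
    rw [hXSB.dens, hXSB.dens] at e
    rw [hτ, e, mul_div_cancel_left₀ _ hgL.ne']
  obtain ⟨hcop, hQ, hQ1⟩ := hXSB.cop (Ps L) P hPL (fun p hp ↦ (hPm p hp).1) hdis
  obtain ⟨-, -, hQ2⟩ := hXSB.cop P (Ps L) (fun p hp ↦ (hPm p hp).1) hPL hdis.symm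
  rw [← hz] at hQ
  let Φ : Finset ℕ → ℝ := fun K ↦ if Si ⊆ K ∧ Disjoint K So then 1 else 0
  let U : ℤ → Finset ℕ := fun a ↦ (range (H + 1)).filter (fun i : ℕ ↦ XS (Ps L) (a + (i : ℤ)) = 1)
  let F : ℤ → ℤ → ℝ := fun a b ↦ Φ ((U a).filter (fun i : ℕ ↦ XS P (b + (i : ℤ)) = 1))
  have e1 : ∀ t, (∏ i ∈ Si, XS (Ps z) (t + (i : ℤ))) *
        ∏ i ∈ So, (1 - 1 * XS (Ps z) (t + (i : ℤ))) = F t t := by
    intro t
    rw [pat (hXSB.zo (Ps z)) H Si So hSi hSo t]
    change Φ _ = Φ _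
    congr 1
    ext i
    simp only [U, Finset.mem_filter, and_assoc]
    refine and_congr_right fun _ ↦ ?_
    have e : XS (Ps z) (t + (i : ℤ)) = XS (Ps L) (t + (i : ℤ)) * XS P (t + (i : ℤ)) := by
      conv_lhs => rw [hz]
      exact hXSB.mul _ _ hdis _
    rw [e]
    rcases hXSB.zo (Ps L) (t + (i : ℤ)) with h5 | h5 <;>
      rcases hXSB.zo P (t + (i : ℤ)) with h6 | h6 <;> rw [h5, h6] <;> norm_num
  have e2 : Av (QS (Ps z)) (fun t => (∏ i ∈ Si, XS (Ps z) (t + (i : ℤ))) *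
        ∏ i ∈ So, (1 - 1 * XS (Ps z) (t + (i : ℤ)))) =
      Av (QS (Ps L)) (fun a ↦ Av (QS P) (fun b ↦ F a b)) := by
    rw [hQ, ← hPER.crt _ _ hQ1 hQ2 hcop F]
    · congr 1
      funext t
      exact e1 t
    · intro a b
      change Φ ((U (a + _)).filter _) = Φ ((U a).filter _)
      have : U (a + (QS (Ps L) : ℤ)) = U a := by
        simp only [U]
        refine Finset.filter_congr fun i _ ↦ ?_
        rw [add_right_comm, hXSB.per (Ps L)]
      rw [this]
    · intro a b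
      change Φ ((U a).filter _) = Φ ((U a).filter _)
      congr 1
      refine Finset.filter_congr fun i _ ↦ ?_
      rw [add_right_comm, hXSB.per P]
  have e3 : ∀ a, ∑ K ∈ (U a).powerset, gS P ^ K.card * (1 - gS P) ^ ((U a).card - K.card) * Φ K =
      τ ^ Si.card * ((∏ i ∈ Si, XS (Ps L) (a + (i : ℤ))) *
        ∏ i ∈ So, (1 - τ * XS (Ps L) (a + (i : ℤ)))) := by
    intro a
    rw [hτg]
    by_cases hs : Si ⊆ U a
    · rw [comb (U a) Si So hd hs τ]
      have e4 : ∏ i ∈ Si, XS (Ps L) (a + (i : ℤ)) = 1 :=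
        Finset.prod_eq_one fun i hi ↦ (Finset.mem_filter.1 (hs hi)).2
      rw [e4, one_mul]
      congr 1
      refine Finset.prod_congr rfl fun i hi ↦ ?_
      rcases hXSB.zo (Ps L) (a + (i : ℤ)) with h5 | h5
      · rw [h5, mul_zero, sub_zero, if_neg]
        intro h6
        rw [(Finset.mem_filter.1 h6).2] at h5
        norm_num at h5
      · rw [h5, mul_one, if_pos (Finset.mem_filter.2 ⟨hSo hi, h5⟩)]
    · obtain ⟨i, hi, hiU⟩ := Finset.not_subset.1 hs
      have h0 : XS (Ps L) (a + (i : ℤ)) = 0 := (hXSB.zo _ _).resolve_right fun h' ↦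
        hiU (Finset.mem_filter.2 ⟨hSi hi, h'⟩)
      rw [Finset.prod_eq_zero hi h0, zero_mul, mul_zero]
      refine Finset.sum_eq_zero fun K hK ↦ ?_
      have : Φ K = 0 := if_neg fun h ↦ hs (h.1.trans (Finset.mem_powerset.1 hK))
      rw [this, mul_zero]
  have hsum : ∑ p ∈ P, 1 / (p : ℝ) ^ 2 ≤ 1 / (L : ℝ) := by
    have hsub : P ⊆ Ioc L z := fun p hp ↦ Finset.mem_Ioc.2 ⟨(hPm p hp).2.2.1, (hPm p hp).2.2.2⟩
    calc ∑ p ∈ P, 1 / (p : ℝ) ^ 2 ≤ ∑ p ∈ Ioc L z, 1 / (p : ℝ) ^ 2 :=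
          Finset.sum_le_sum_of_subset_of_nonneg hsub fun _ _ _ ↦ by positivity
      _ = ∑ p ∈ Ioc L z, ((p : ℝ) ^ 2)⁻¹ := by simp only [one_div]
      _ ≤ (L : ℝ)⁻¹ - (z : ℝ)⁻¹ := sum_Ioc_inv_sq_le_sub (by omega) h3
      _ ≤ 1 / L := by rw [one_div]; linarith [show (0 : ℝ) ≤ (z : ℝ)⁻¹ by positivity]
  have hLpos : (0 : ℝ) < L := by exact_mod_cast h2
  have e5 : (τ ^ Si.card * Av (QS (Ps L)) fun t => (∏ i ∈ Si, XS (Ps L) (t + (i : ℤ))) *
        ∏ i ∈ So, (1 - τ * XS (Ps L) (t + (i : ℤ)))) =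
      Av (QS (Ps L)) fun t => τ ^ Si.card * ((∏ i ∈ Si, XS (Ps L) (t + (i : ℤ))) *
        ∏ i ∈ So, (1 - τ * XS (Ps L) (t + (i : ℤ)))) := by
    unfold Av
    rw [← Finset.mul_sum, mul_div_assoc]
  rw [e2, e5]
  refine av_sub_le hQ1 fun a ↦ ?_
  rw [← e3 a]
  have h6 := hTV P H (fun p hp ↦ ⟨(hPm p hp).1, (hPm p hp).2.1, by
    have := (hPm p hp).2.2.1; omega⟩) (U a) (Finset.filter_subset _ _) Φ (fun K _ ↦ by
      change |(if _ then (1 : ℝ) else 0)| ≤ 1
      split_ifs <;> norm_num)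
  refine h6.trans ?_
  have hcard : ((U a).card : ℝ) ≤ (H : ℝ) + 1 := by
    have := Finset.card_le_card (Finset.filter_subset
      (fun i : ℕ ↦ XS (Ps L) (a + (i : ℤ)) = 1) (range (H + 1)))
    rw [Finset.card_range] at this
    exact_mod_cast this
  calc 8 * ((U a).card : ℝ) ^ 2 * ∑ p ∈ P, 1 / (p : ℝ) ^ 2 ≤ 8 * ((H : ℝ) + 1) ^ 2 * (1 / L) := by
        apply mul_le_mul _ hsum (Finset.sum_nonneg fun _ _ ↦ by positivity) (by positivity)
        have := pow_le_pow_left₀ (Nat.cast_nonneg _ : (0 : ℝ) ≤ ((U a).card : ℝ)) hcard 2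
        linarith
    _ = 8 * ((H : ℝ) + 1) ^ 2 / L := by ring

theorem st (hPER : StmtPER) (hXSB : StmtXSB) (hTV : StmtTV) : StmtST := by
  classical
  intro L z H h1 h2 h3
  refine ⟨fun h hh ↦ ?_, ?_⟩
  · rw [Finset.mem_Icc] at hh
    have := main hPER hXSB hTV L z H h1 h2 h3 {0, h} (Ioo 0 h) (by
      rw [Finset.disjoint_left]
      intro i hi hi'
      rw [Finset.mem_Ioo] at hi'
      rw [Finset.mem_insert, Finset.mem_singleton] at hi
      omega) (by
      intro i hi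
      rw [Finset.mem_insert, Finset.mem_singleton] at hi
      rw [Finset.mem_range]; omega) (by
      intro i hi
      rw [Finset.mem_Ioo] at hi
      rw [Finset.mem_range]; omega)
    have hc : ({0, h} : Finset ℕ).card = 2 := Finset.card_pair (by omega)
    rw [hc] at this
    have hprod : ∀ (X : ℤ → ℝ) (t : ℤ), ∏ i ∈ ({0, h} : Finset ℕ), X (t + (i : ℤ)) =
        X t * X (t + (h : ℤ)) := by
      intro X t
      rw [Finset.prod_pair (by omega), Nat.cast_zero, add_zero]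
    simp only [hprod] at this
    convert this using 3
    · congr 1
      funext t
      unfold Pw
      ring
    · congr 2
      funext t
      unfold Pw
      ring
  · have := main hPER hXSB hTV L z H h1 h2 h3 {0} (Icc 1 H) (by
      rw [Finset.disjoint_left]
      intro i hi hi'
      rw [Finset.mem_Icc] at hi'
      rw [Finset.mem_singleton] at hi
      omega) (by
      intro i hi
      rw [Finset.mem_singleton] at hi
      rw [Finset.mem_range]; omega) (by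
      intro i hi
      rw [Finset.mem_Icc] at hi
      rw [Finset.mem_range]; omega)
    simp only [Finset.card_singleton, Finset.prod_singleton, pow_one, Nat.cast_zero,
      add_zero] at this
    exact this

end Pool.Agent.Helper17.TB
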