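import Pool.Agent.Helper76.TB.Goals
import Pool.Agent.Helper60.BFT.Core

/-!
# Project TB: packet U-UNI, uniformity
-/

set_option autoImplicit false

open Finset Filter Topology

namespace Pool.Agent.Helper17.TB

open Pool.Agent.Helper90.Twin (Ps Gz Sz XX yy Xz avgI errB sig SieveSys errB_nonneg Gz_pos Gz_le_one)
open Pool.Agent.Helper60.BFT (XA yA Av lg Av_sum Av_sub Av_mul_left Av_ext B0 B1 B2)
open Pool.Agent.Helper76.TB

theorem errB_mono_N (S : Finset ℕ) (k m : ℕ) {M N : ℕ} (h : M ≤ N) :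
    errB S k m M ≤ errB S k m N := by
  unfold errB
  have h1 : (M : ℝ) ≤ N := by exact_mod_cast h
  have h2 : 0 ≤ (2 * (k : ℝ) * ∑ p ∈ S, 1 / (p : ℝ)) ^ m / (m.factorial : ℝ) := by positivity
  have h3 : 2 * (M : ℝ) * ((2 * (k : ℝ) * ∑ p ∈ S, 1 / (p : ℝ)) ^ m / (m.factorial : ℝ)) ≤
      2 * (N : ℝ) * ((2 * (k : ℝ) * ∑ p ∈ S, 1 / (p : ℝ)) ^ m / (m.factorial : ℝ)) :=
    mul_le_mul_of_nonneg_right (by linarith) h2
  linarith

theorem alt_sum (X : ℕ → ℝ) (N : ℕ) :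
    ∑ t ∈ range N, (-1 : ℝ) ^ t * X t =
      2 * ∑ t ∈ range ((N + 1) / 2), X (2 * t) - ∑ t ∈ range N, X t := by
  induction N with
  | zero => simp
  | succ N ih =>
    rw [Finset.sum_range_succ, Finset.sum_range_succ, ih]
    rcases Nat.even_or_odd' N with ⟨k, rfl | rfl⟩
    · have e1 : (2 * k + 1) / 2 = k := by omega
      have e2 : (2 * k + 1 + 1) / 2 = k + 1 := by omega
      rw [e1, e2, Finset.sum_range_succ]
      have e3 : (-1 : ℝ) ^ (2 * k) = 1 := by rw [pow_mul]; norm_num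
      rw [e3]
      ring
    · have e1 : (2 * k + 1 + 1) / 2 = k + 1 := by omega
      have e2 : (2 * k + 1 + 1 + 1) / 2 = k + 1 := by omega
      rw [e1, e2]
      have e3 : (-1 : ℝ) ^ (2 * k + 1) = -1 := by rw [pow_succ, pow_mul]; norm_num
      rw [e3]
      ring

theorem tendsto_HH (h : HBG) : Tendsto HH atTop atTop := by
  rw [tendsto_atTop]
  intro b
  filter_upwards [h b] with Z hZ
  obtain ⟨h1, h2, -⟩ := hZ
  have h3 : (b : ℝ) ≤ HH Z := by
    have hb : (0 : ℝ) ≤ b := Nat.cast_nonneg b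
    nlinarith
  exact_mod_cast h3

theorem uni (h1 : CORRG) (h2 : INVG) (h3 : TRANSG) (h4 : TAILG) (h5 : HBG) (h6 : SIZEG) :
    UNIG := by
  obtain ⟨c1, c2⟩ := h1
  obtain ⟨C0, hC0, hT⟩ := h4
  obtain ⟨C, hC, hS⟩ := h6 C0 hC0
  refine ⟨C, hC, ?_⟩
  filter_upwards [hS, (tendsto_HH h5).eventually hT, h5 1] with Z hS hT hB
  intro r hr N hN A
  obtain ⟨R, m, s1, s2, s3⟩ := hS r hr N hN
  obtain ⟨b1, b2, -, -, -, b6⟩ := hB
  have hH1 : 1 ≤ HH Z := by
    have : (1 : ℝ) ≤ HH Z := by linarith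
    exact_mod_cast this
  have hG0 := Gz_pos Z
  have hG1 := Gz_le_one Z
  have e0 := errB_nonneg (Ps r) 1 m N
  -- the sum of the indicators
  have hsum : |Av (lg r Z) (fun B => B0 (XA Z B) N) A - N * Gz Z| ≤ errB (Ps r) 1 m N := by
    have h := c1 r Z hr {0} A m N
    rw [h2.2.2.2 Z, Finset.card_singleton] at h
    have e : Av (lg r Z) (fun B => ∑ t ∈ range N, ∏ i ∈ ({0} : Finset ℕ), XA Z B (t + i)) A =
        Av (lg r Z) (fun B => B0 (XA Z B) N) A :=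
      Av_ext _ _ _ _ fun B => by simp [B0]
    rw [e] at h
    exact h
  refine ⟨?_, ?_, ?_⟩
  · intro c hc
    have ht := h3 r Z (HH Z) R m N A c hr hH1 hc
    have hl := hT Z b6 (R + 1) s1
    have hN0 : (0 : ℝ) ≤ 2 * N := by positivity
    have hl2 := mul_le_mul_of_nonneg_left hl hN0
    unfold PA
    linarith
  · linarith
  · have e : Av (lg r Z) (fun B => B1 (XA Z B) N) A =
        2 * Av (lg r Z) (fun B => ∑ t ∈ range ((N + 1) / 2), XA Z B (2 * t)) A -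
          Av (lg r Z) (fun B => B0 (XA Z B) N) A := by
      rw [← Av_mul_left, ← Av_sub]
      exact Av_ext _ _ _ _ fun B => alt_sum _ _
    have hM : (N + 1) / 2 ≤ N := by omega
    have k1 := (c2 r Z hr A m ((N + 1) / 2)).trans (errB_mono_N (Ps r) 1 m hM)
    have hM2 : |2 * (((N + 1) / 2 : ℕ) : ℝ) - N| ≤ 1 := by
      have q1 : 2 * ((N + 1) / 2) ≤ N + 1 := by omega
      have q2 : N ≤ 2 * ((N + 1) / 2) := by omega
      have q1' : 2 * (((N + 1) / 2 : ℕ) : ℝ) ≤ N + 1 := by exact_mod_cast q1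
      have q2' : (N : ℝ) ≤ 2 * (((N + 1) / 2 : ℕ) : ℝ) := by exact_mod_cast q2
      rw [abs_le]
      constructor <;> linarith
    have hM3 : |(2 * (((N + 1) / 2 : ℕ) : ℝ) - N) * Gz Z| ≤ 1 := by
      rw [abs_mul, abs_of_pos hG0]
      calc _ ≤ 1 * 1 := mul_le_mul hM2 hG1 hG0.le (by norm_num)
        _ = 1 := one_mul 1
    rw [e]
    rw [abs_le] at k1 hsum hM3
    have hbd : |2 * Av (lg r Z) (fun B => ∑ t ∈ range ((N + 1) / 2), XA Z B (2 * t)) A -
          Av (lg r Z) (fun B => B0 (XA Z B) N) A| ≤ 3 * errB (Ps r) 1 m N + 1 := by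
      rw [abs_le]
      constructor <;> linarith [k1.1, k1.2, hsum.1, hsum.2, hM3.1, hM3.2]
    linarith

end Pool.Agent.Helper17.TB
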